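import Pool.Agent.VMX.StmtsF

/-!
# VMX squad (MP_e54c4c_gt), block F, row EXT: the eigenvector is extreme
-/

set_option autoImplicit false

open Matrix Filter Topology

namespace Pool.Agent.VMX.H28

open Pool.Agent.PFS Pool.Agent.PFJ Pool.Agent.NBT

variable {n : ℕ} {C : Set (V n)}

/-- the largest multiple of `b` below `a` -/
theorem maxt (hP : PCone C) {a b : V n} (ha : a ∈ closure C) (hb : b ∈ closure C) (hb0 : b ≠ 0) :
    ∃ σ : ℝ, 0 ≤ σ ∧ a - σ • b ∈ closure C ∧ ∀ t : ℝ, σ < t → a - t • b ∉ closure C := by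
  obtain ⟨B, hB, hBn⟩ := hP.normal
  have hbn : 0 < ‖b‖ := norm_pos_iff.2 hb0
  set S : Set ℝ := {t | 0 ≤ t ∧ a - t • b ∈ closure C} with hS
  have hcl : IsClosed S := by
    have h1 : IsClosed {t : ℝ | 0 ≤ t} := isClosed_Ici
    have h2 : IsClosed {t : ℝ | a - t • b ∈ closure C} :=
      isClosed_closure.preimage (by fun_prop)
    exact h1.inter h2
  have hbd : ∀ t ∈ S, t ≤ B * ‖a‖ / ‖b‖ := by
    rintro t ⟨ht0, ht⟩
    have h1 := hBn (t • b) a (hP.cl_smul hb ht0) ht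
    rw [norm_smul, Real.norm_of_nonneg ht0] at h1
    rwa [le_div_iff₀ hbn]
  have hcp : IsCompact S := by
    refine (isCompact_Icc (a := (0 : ℝ)) (b := B * ‖a‖ / ‖b‖)).of_isClosed_subset hcl ?_
    intro t ht
    exact ⟨ht.1, hbd t ht⟩
  have hne : S.Nonempty := ⟨0, le_rfl, by rw [zero_smul, sub_zero]; exact ha⟩
  obtain ⟨σ, hσ, hmax⟩ := hcp.exists_isGreatest hne
  refine ⟨σ, hσ.1, hσ.2, ?_⟩
  intro t ht htc
  exact absurd (hmax ⟨hσ.1.trans ht.le, htc⟩) (not_le.2 ht)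

/-- omitting one vertex -/
theorem fS_not' {K : ℕ} {w : Fin K → V n} (hw : PES C w) (m : Fin K) : fS w {m}ᶜ ∉ C := by
  classical
  have h1 := hw.bd (fun l => if l = m then 0 else 1) (fun l => by split_ifs <;> norm_num)
    ⟨m, by simp⟩
  have h2 : ∑ l, (if l = m then (0 : ℝ) else 1) • w l = fS w {m}ᶜ := by
    unfold fS
    rw [← Finset.sum_compl_add_sum {m}]
    rw [Finset.sum_singleton, if_pos rfl, zero_smul, add_zero]
    refine Finset.sum_congr rfl fun l hl => ?_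
    rw [Finset.mem_compl, Finset.mem_singleton] at hl
    rw [if_neg hl, one_smul]
  rwa [h2] at h1

/-- a vertex is not small compared with the sum of the vertices -/
theorem small_false (hP : PCone C) {K : ℕ} {w : Fin K → V n} (hw : PES C w) (i : Fin K)
    {a b : ℝ} (hb : 0 ≤ b) (hab : b < a) (h : b • (∑ m, w m) - a • w i ∈ closure C) : False := by
  have hcl : ∀ l, w l ∈ closure C := fun l => PES.cl hw l
  have hsum : w i + fS w {i}ᶜ = ∑ l, w l := by rw [← fS_add_compl w {i}, fS_single]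
  have hS : (a - b) • (∑ l, w l) ∈ C := hP.smul _ (PES.sum_mem hw) _ (by linarith)
  have h1 := hP.add_cl hS h
  have h2 : (a - b) • (∑ l, w l) + (b • (∑ m, w m) - a • w i) = a • fS w {i}ᶜ := by
    rw [← hsum]; module
  rw [h2, hP.smul_iff (by linarith)] at h1
  exact fS_not' hw i h1

/-- the final step -/
theorem fin_step {Γ : Subgroup (GL (Fin n) ℝ)} (h : CC C Γ) {p : V n} (hp : p ∈ closure C)
    {γ : ℕ → GL (Fin n) ℝ} {t : ℕ → ℝ} {T : V n →ₗ[ℝ] V n} (hγ : ∀ m, γ m ∈ Γ)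
    (ht : ∀ m, 0 < t m) (hlim : ∀ u, Tendsto (fun m => t m • act (γ m) u) atTop (𝓝 (T u)))
    {α : ℕ → ℝ} (hα : ∀ m, 0 < α m) (hGp : ∀ m, t m • act (γ m) p = α m • p)
    {α₀ : ℝ} (hα₀ : 0 < α₀) (hTp : T p = α₀ • p) {f wi : V n}
    (hf : (2 : ℝ) • T p - T f ∈ closure C) (hfc : f ∈ closure C) (hwi : wi ∈ closure C) {η : ℝ}
    (hη : η ≤ 1 / 32) (hpw : η • f - (p - wi) ∈ closure C) {u : V n} (hu : u ∈ closure C)
    (hup : p - u ∈ closure C) {c : ℝ} (hc : 1 / 4 ≤ c)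
    (hcu : (1 / 32 : ℝ) • f + (u - c • wi) ∈ closure C) :
    ∃ δ : ℝ, 0 < δ ∧ u - δ • p ∈ closure C := by
  have hP : PCone C := h.toPCone
  have hTc : ∀ x ∈ closure C, T x ∈ closure C := fun x hx =>
    isClosed_closure.mem_of_tendsto (hlim x)
      (Eventually.of_forall fun m => (h.sact_cl_iff (hγ m) (ht m)).2 hx)
  -- `p ≤ 4 u + (5/32) f`
  have h1 : (4 : ℝ) • u + (5 / 32 : ℝ) • f - p ∈ closure C := by
    have e1 := hP.cl_add (hP.cl_add (hP.cl_smul hcu (t := 4) (by norm_num)) hpw)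
      (hP.cl_add (hP.cl_smul hwi (t := 4 * c - 1) (by linarith))
        (hP.cl_smul hfc (t := 1 / 32 - η) (by linarith)))
    have e2 : (4 : ℝ) • ((1 / 32 : ℝ) • f + (u - c • wi)) + (η • f - (p - wi))
        + ((4 * c - 1) • wi + (1 / 32 - η) • f) = (4 : ℝ) • u + (5 / 32 : ℝ) • f - p := by
      module
    rwa [e2] at e1
  have h2 : T u - (11 / 64 * α₀) • p ∈ closure C := by
    have e1 := hP.cl_add (hTc _ h1) (hP.cl_smul hf (t := 5 / 32) (by norm_num))
    have e2 : T ((4 : ℝ) • u + (5 / 32 : ℝ) • f - p) + (5 / 32 : ℝ) • ((2 : ℝ) • T p - T f)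
        = (4 : ℝ) • (T u - (11 / 64 * α₀) • p) := by
      rw [map_sub, map_add, map_smul, map_smul, hTp]; module
    rw [e2, hP.cl_smul_iff (by norm_num)] at e1
    exact e1
  -- the span of the face of `p`
  obtain ⟨fc1, fc2, -, -, -⟩ := fcs n C hP p hp
  have hG : ∀ m, t m • act (γ m) u ∈ Submodule.span ℝ (Face C p) := by
    intro m
    refine fc2 _ ((h.sact_cl_iff (hγ m) (ht m)).2 hu) (α m) ?_
    rw [← hGp m, ← smul_sub, ← CC.act_sub]
    exact (h.sact_cl_iff (hγ m) (ht m)).2 hup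
  have hT : T u ∈ Submodule.span ℝ (Face C p) := by
    refine fc2 _ (hTc _ hu) α₀ ?_
    rw [← hTp, ← map_sub]
    exact hTc _ hup
  set κ : ℝ := 11 / 64 * α₀ with hκ
  have hκ0 : 0 < κ := by positivity
  have hz : Tendsto (fun m => (2 / κ) • (t m • act (γ m) u - T u)) atTop (𝓝 0) := by
    have e1 := ((hlim u).sub (tendsto_const_nhds (x := T u))).const_smul (2 / κ)
    rwa [sub_self, smul_zero] at e1
  obtain ⟨m, hm⟩ := (uop n C hP _ p fc1 (fun m => (2 / κ) • (t m • act (γ m) u - T u))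
    (fun m => Submodule.smul_mem _ _ (Submodule.sub_mem _ (hG m) hT)) hz).exists
  refine ⟨κ / 2 / α m, by have := hα m; positivity, ?_⟩
  rw [← h.sact_cl_iff (hγ m) (ht m)]
  have e3 := hP.cl_add h2 (hP.cl_smul hm (t := κ / 2) (by positivity))
  have e4 : T u - κ • p + (κ / 2) • (p + (2 / κ) • (t m • act (γ m) u - T u))
      = t m • act (γ m) (u - (κ / 2 / α m) • p) := by
    have e6 : t m • act (γ m) (u - (κ / 2 / α m) • p)
        = t m • act (γ m) u - (κ / 2 / α m) • (t m • act (γ m) p) := by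
      rw [CC.act_sub, CC.act_smul]; module
    have e7 : (κ / 2 / α m) • (t m • act (γ m) p) = (κ / 2) • p := by
      rw [hGp m, smul_smul, div_mul_cancel₀ _ (hα m).ne']
    have e5 : κ / 2 * (2 / κ) = 1 := by field_simp
    rw [e6, e7, smul_add, smul_smul, e5]
    module
  rwa [e4] at e3

/-- **Row EXT.** -/
theorem ext : ExtStmt := by
  intro n k C Γ h g hg w i s lam η θ p γ t T hs hw hMT hEg hη0 hηθ hη hNv hTp hTf hray hun
  have hP : PCone C := h.toPCone
  have hul := h.hul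
  have hp : p ∈ closure C := hul.lamCl _ hEg.1
  have hp0 : p ≠ 0 := hul.lamNe _ hEg.1
  have hpn : 0 < ‖p‖ := norm_pos_iff.2 hp0
  have hcl : ∀ l, w l ∈ closure C := fun l => PES.cl hw.1 l
  have hfc : ∑ m, w m ∈ closure C := subset_closure (PES.sum_mem hw.1)
  -- `G p = α p`
  have hG : ∀ m, ∃ c : ℝ, 0 < c ∧ t m • act (γ m) p = c • p := by
    intro m
    refine hray _ ⟨hul.lamSmul _ (hul.lamAct _ hEg.1 _ (hMT.mem m)) _ (hMT.pos m), ?_⟩
    rw [CC.act_smul, ← CC.act_mul, ← hMT.com m, CC.act_mul, smul_comm s (t m),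
      ← CC.act_smul (γ m) s, hEg.2, CC.act_smul, smul_comm (t m) lam]
  choose α hα hGp using hG
  have hαl : Tendsto α atTop (𝓝 (‖T p‖ / ‖p‖)) := by
    have h1 := ((hMT.lim p).norm).div_const ‖p‖
    refine h1.congr fun m => ?_
    rw [hGp m, norm_smul, Real.norm_of_nonneg (hα m).le, mul_div_cancel_right₀ _ hpn.ne']
  set α₀ : ℝ := ‖T p‖ / ‖p‖ with hα₀
  have hα₀p : 0 < α₀ := div_pos (norm_pos_iff.2 hTp) hpn
  have hTpe : T p = α₀ • p := by
    refine tendsto_nhds_unique (hMT.lim p) ?_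
    have h1 := hαl.smul_const p
    refine h1.congr fun m => (hGp m).symm
  -- the contradiction
  intro y hy M hM
  by_contra hcon
  push Not at hcon
  have hM' : max M 1 • p - y ∈ closure C := by
    have h1 := hP.cl_add hM (hP.cl_smul hp (t := max M 1 - M) (by linarith [le_max_left M 1]))
    have h2 : M • p - y + (max M 1 - M) • p = max M 1 • p - y := by module
    rwa [h2] at h1
  have hM1 : 0 < max M 1 := lt_of_lt_of_le one_pos (le_max_right M 1)
  obtain ⟨σ, hσ0, hσ, hσm⟩ := maxt hP hy hp hp0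
  have hy1 : y - σ • p ≠ 0 := by
    intro h0
    exact hcon σ (sub_eq_zero.1 h0)
  obtain ⟨τ, hτ0, hτ, hτm⟩ := maxt hP hp hσ hy1
  have hτp : 0 < τ := by
    by_contra hneg
    have hτe : τ = 0 := le_antisymm (not_lt.1 hneg) hτ0
    refine hτm (max M 1)⁻¹ (by rw [hτe]; positivity) ?_
    have h1 := hP.cl_smul (hP.cl_add hM' (hP.cl_smul hp hσ0)) (t := (max M 1)⁻¹) (by positivity)
    have h2 : (max M 1)⁻¹ • (max M 1 • p - y + σ • p) = p - (max M 1)⁻¹ • (y - σ • p) := by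
      have h3 : (max M 1)⁻¹ • (max M 1 • p - y + σ • p)
          = ((max M 1)⁻¹ * max M 1) • p - (max M 1)⁻¹ • (y - σ • p) := by module
      rw [h3, inv_mul_cancel₀ hM1.ne', one_smul]
    rwa [h2] at h1
  set u : V n := τ • (y - σ • p) with hu
  have huc : u ∈ closure C := hP.cl_smul hσ hτ0
  -- `u` does not dominate `p`
  have hu1 : ∀ δ : ℝ, 0 < δ → u - δ • p ∉ closure C := by
    intro δ hδ hmem
    refine hσm (σ + δ / τ) (by have := div_pos hδ hτp; linarith) ?_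
    have h1 : u - δ • p = τ • (y - (σ + δ / τ) • p) := by
      have h2 : τ • (y - (σ + δ / τ) • p) = τ • (y - σ • p) - (τ * (δ / τ)) • p := by module
      rw [h2, mul_div_cancel₀ _ hτp.ne', hu]
    rw [h1, hP.cl_smul_iff hτp] at hmem
    exact hmem
  -- `p - u` does not dominate `p`
  have hu2 : ∀ δ : ℝ, 0 < δ → (p - u) - δ • p ∉ closure C := by
    intro δ hδ hmem
    have hδ' : 0 < min δ (1 / 2) := lt_min hδ (by norm_num)
    have h0 : (1 - min δ (1 / 2)) • p - u ∈ closure C := by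
      have h1 := hP.cl_add hmem (hP.cl_smul hp (t := δ - min δ (1 / 2))
        (by linarith [min_le_left δ (1 / 2)]))
      have h2 : p - u - δ • p + (δ - min δ (1 / 2)) • p = (1 - min δ (1 / 2)) • p - u := by
        module
      rwa [h2] at h1
    have hpos : 0 < 1 - min δ (1 / 2) := by linarith [min_le_right δ (1 / 2 : ℝ)]
    refine hτm (τ / (1 - min δ (1 / 2))) ?_ ?_
    · rw [lt_div_iff₀ hpos]
      nlinarith
    · have h3 : (1 - min δ (1 / 2)) • (p - (τ / (1 - min δ (1 / 2))) • (y - σ • p))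
          = (1 - min δ (1 / 2)) • p - u := by
        rw [smul_sub, smul_smul, mul_div_cancel₀ _ hpos.ne', hu]
      rw [← h3, hP.cl_smul_iff hpos] at h0
      exact h0
  have hpu : p - (p - u) ∈ closure C := by rw [sub_sub_cancel]; exact huc
  -- both are almost below the vertex
  have hbel : ∀ x : V n, p - x ∈ closure C → (2 : ℝ) • w i + θ • (∑ m, w m) - x ∈ closure C := by
    intro x hx
    have h1 := hP.cl_add (hP.cl_add hNv.1 hx)
      (hP.cl_add (hcl i) (hP.cl_smul hfc (t := θ - η) (by linarith)))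
    have h2 : η • (∑ m, w m) - (p - w i) + (p - x) + (w i + (θ - η) • (∑ m, w m))
        = (2 : ℝ) • w i + θ • (∑ m, w m) - x := by module
    rwa [h2] at h1
  obtain ⟨c, hc0, hc1, hc2⟩ := hun u huc (hbel u hτ)
  obtain ⟨c', hc0', hc1', hc2'⟩ := hun (p - u) hτ (hbel _ hpu)
  have hcc : 1 / 2 ≤ c + c' := by
    by_contra hlt
    rw [not_le] at hlt
    refine small_false hP hw.1 i (a := 1 - (c + c')) (b := 3 / 32) (by norm_num)
      (by linarith) ?_
    have h1 := hP.cl_add (hP.cl_add hNv.2 (hP.cl_add hc1 hc1'))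
      (hP.cl_smul hfc (t := 1 / 32 - η) (by linarith))
    have h2 : η • (∑ m, w m) + (p - w i) + ((1 / 32 : ℝ) • (∑ m, w m) - (u - c • w i)
        + ((1 / 32 : ℝ) • (∑ m, w m) - (p - u - c' • w i))) + (1 / 32 - η) • (∑ m, w m)
        = (3 / 32 : ℝ) • (∑ m, w m) - (1 - (c + c')) • w i := by module
    rwa [h2] at h1
  rcases le_or_gt (1 / 4) c with hq | hq
  · obtain ⟨δ, hδ, hδ'⟩ := fin_step h hp hMT.mem hMT.pos hMT.lim hα hGp hα₀p hTpe hTf hfc
      (hcl i) hη hNv.1 huc hτ hq hc2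
    exact hu1 δ hδ hδ'
  · obtain ⟨δ, hδ, hδ'⟩ := fin_step h hp hMT.mem hMT.pos hMT.lim hα hGp hα₀p hTpe hTf hfc
      (hcl i) hη hNv.1 hτ hpu (c := c') (by linarith) hc2'
    exact hu2 δ hδ hδ'

end Pool.Agent.VMX.H28
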