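import Pool.Agent.VMX.StmtsF

/-!
# VMX squad (MP_e54c4c_gt), block F, row NEA: every eigenvector in the limit cone is near a vertex
-/

set_option autoImplicit false

open Matrix Filter Topology

namespace Pool.Agent.VMX.H28

open Pool.Agent.PFS Pool.Agent.PFJ Pool.Agent.NBT

variable {n : ℕ} {C : Set (V n)}

/-- a sequence of properly embedded simplices can be zoomed so that a subsequence converges -/
theorem cmp {Γ : Subgroup (GL (Fin n) ℝ)} (h : CC C Γ) {K : ℕ} (hK : 2 ≤ K)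
    (x : ℕ → Fin K → V n) (hx : ∀ m, IsPES C Γ (x m)) :
    ∃ (φ : ℕ → ℕ) (g : ℕ → GL (Fin n) ℝ) (s : ℕ → ℝ) (W : Fin K → V n), StrictMono φ ∧
      (∀ m, g m ∈ Γ) ∧ (∀ m, 0 < s m) ∧ IsPES C Γ W ∧
      ∀ i, Tendsto (fun m => s m • act (g m) (x (φ m) i)) atTop (𝓝 (W i)) := by
  have h1 : ∀ m, ∑ i, x m i ∈ Hull C Γ := by
    intro m
    have := (H60.elm n C Γ h (Fin K) (x m) (hx m)).2.2.2.1 (fun _ => 1) (fun _ => one_pos)
    simpa using this
  obtain ⟨φ, g, s, p, hφ, hg, hs, hp, hlim⟩ := H60.zom n C Γ h (fun m => ∑ i, x m i)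
    (fun m => PES.sum_mem (hx m).1) h1
  have hsum : ∀ m, ∑ i, s m • act (g m) (x (φ m) i) = s m • act (g m) (∑ i, x (φ m) i) := by
    intro m
    rw [CC.act_sum, Finset.smul_sum]
  obtain ⟨ψ, W, hψ, hW, -, hPW⟩ := H37.lpsF n C Γ h (Fin K) (by simpa using hK)
    (fun m i => s m • act (g m) (x (φ m) i)) p
    (fun m => (H60.elm n C Γ h (Fin K) (x (φ m)) (hx (φ m))).2.1 (g m) (hg m) (s m) (hs m)) hp
    (by simpa only [hsum] using hlim)
  exact ⟨fun k => φ (ψ k), fun k => g (ψ k), fun k => s (ψ k), W, hφ.comp hψ,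
    fun k => hg _, fun k => hs _, hPW, hW⟩

/-- omitting one vertex -/
theorem fS_not {K : ℕ} {w : Fin K → V n} (hw : PES C w) (m : Fin K) : fS w {m}ᶜ ∉ C := by
  classical
  have h1 := hw.bd (fun l => if l = m then 0 else 1) (fun l => by split_ifs <;> norm_num)
    ⟨m, by simp⟩
  have h2 : ∑ l, (if l = m then (0 : ℝ) else 1) • w l = fS w {m}ᶜ := by
    unfold fS
    rw [← Finset.sum_compl_add_sum {m}]
    rw [Finset.sum_singleton, if_pos rfl, zero_smul, add_zero]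
    refine Finset.sum_congr rfl fun l hl => ?_
    rw [Finset.mem_compl, Finset.mem_singleton] at hl
    rw [if_neg hl, one_smul]
  rwa [h2] at h1

/-- the main estimate -/
theorem step0 (hP : PCone C) {K : ℕ} {w : Fin K → V n} (hw : PES C w) (m : Fin K)
    (ρ : Fin K → ℝ) (hρ : ∀ l, 0 ≤ ρ l) {δ M M' : ℝ} (hδ : ρ m ≤ δ) (hM : 0 < M) (hM' : 0 < M')
    (hd : M * M' * δ ≤ 1 / 2) {v : V n} (hB : M' • (∑ l, ρ l • w l) - v ∈ closure C)
    (hA : M • (v + fS w {m}ᶜ) - w m ∈ closure C) : False := by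
  classical
  have hcl : ∀ l, w l ∈ closure C := fun l => PES.cl hw l
  set F := fS w {m}ᶜ with hF
  have hFc : F ∈ closure C := fS_cl hP hcl _
  have hS : F + w m ∈ C := by
    have h1 : w m + F = ∑ l, w l := by
      rw [hF, ← fS_add_compl w {m}, fS_single]
    rw [add_comm, h1]
    exact PES.sum_mem hw
  set R := ∑ l, ρ l with hR
  have hR0 : 0 ≤ R := Finset.sum_nonneg fun l _ => hρ l
  -- the sum
  have hsum : δ • w m + R • F - ∑ l, ρ l • w l ∈ closure C := by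
    have h1 : ∑ l, ρ l • w l = ρ m • w m + ∑ l ∈ ({m} : Finset (Fin K))ᶜ, ρ l • w l := by
      rw [← Finset.sum_add_sum_compl {m}, Finset.sum_singleton]
    have h2 : R • F - ∑ l ∈ ({m} : Finset (Fin K))ᶜ, ρ l • w l
        = ∑ l ∈ ({m} : Finset (Fin K))ᶜ, (R - ρ l) • w l := by
      rw [hF]
      unfold fS
      rw [Finset.smul_sum, ← Finset.sum_sub_distrib]
      exact Finset.sum_congr rfl fun l _ => by rw [sub_smul]
    have h3 : δ • w m + R • F - ∑ l, ρ l • w l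
        = (δ - ρ m) • w m + ∑ l ∈ ({m} : Finset (Fin K))ᶜ, (R - ρ l) • w l := by
      rw [h1, ← h2]; module
    rw [h3]
    refine hP.cl_add (hP.cl_smul (hcl m) (by linarith)) (hP.cl_sum fun l _ => ?_)
    refine hP.cl_smul (hcl l) ?_
    have := Finset.single_le_sum (f := ρ) (fun l _ => hρ l) (Finset.mem_univ l)
    linarith
  -- combine
  have hv : M' • (δ • w m + R • F) - v ∈ closure C := by
    refine hP.le_trans hB ?_
    rw [← smul_sub]
    exact hP.cl_smul hsum hM'.le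
  have hN : (M * M' * R + M) • F - (1 / 2 : ℝ) • w m ∈ closure C := by
    have h1 := hP.cl_add hA (hP.cl_smul hv hM.le)
    have h2 := hP.cl_add h1 (hP.cl_smul (hcl m) (t := 1 / 2 - M * M' * δ) (by linarith))
    have h3 : M • (v + F) - w m + M • (M' • (δ • w m + R • F) - v) + (1 / 2 - M * M' * δ) • w m
        = (M * M' * R + M) • F - (1 / 2 : ℝ) • w m := by module
    rwa [h3] at h2
  have hC : (1 / 2 : ℝ) • (F + w m) + ((M * M' * R + M) • F - (1 / 2 : ℝ) • w m) ∈ C :=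
    hP.add_cl (hP.smul _ hS _ (by norm_num)) hN
  have h4 : (1 / 2 : ℝ) • (F + w m) + ((M * M' * R + M) • F - (1 / 2 : ℝ) • w m)
      = (M * M' * R + M + 1 / 2) • F := by module
  rw [h4, hP.smul_iff (by positivity)] at hC
  exact fS_not hw m hC

/-- the two cases of `Far` -/
theorem step {Γ : Subgroup (GL (Fin n) ℝ)} (h : CC C Γ) {K : ℕ} {w z : Fin K → V n}
    (hw : PES C w) (hz : PES C z) {g : GL (Fin n) ℝ} (hg : g ∈ Γ) {s : ℝ} (hs : 0 < s)
    {e : Fin K → ℝ} (he : ∀ l, 0 < e l) (heq : ∀ l, s • act g (w l) = e l • z l)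
    {lam : ℝ} (hlam : 0 < lam) {v : V n} (hv : s • act g v = lam • v) (m : Fin K)
    {δ M M' : ℝ} (hM : 0 < M) (hM' : 0 < M') (hd : M * M' * δ ≤ 1 / 2)
    (hA : M • (v + fS w {m}ᶜ) - w m ∈ closure C) (hA' : M • (v + fS z {m}ᶜ) - z m ∈ closure C)
    (hB : M' • (∑ l, w l) - v ∈ closure C) (hB' : M' • (∑ l, z l) - v ∈ closure C)
    (hF : lam ≤ δ * e m ∨ e m ≤ δ * lam) : False := by
  have hP : PCone C := h.toPCone
  rcases hF with hF | hF
  · refine step0 hP hw m (fun l => lam / e l) (fun l => (div_pos hlam (he l)).le) (δ := δ)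
      ((div_le_iff₀ (he m)).2 hF) hM hM' hd (v := v) ?_ hA
    rw [← h.sact_cl_iff hg hs]
    have h1 : s • act g (M' • (∑ l, (lam / e l) • w l) - v) = lam • (M' • (∑ l, z l) - v) := by
      rw [CC.act_sub, smul_sub, hv, CC.act_smul, smul_comm s M', CC.act_sum, Finset.smul_sum]
      have h2 : ∑ l, s • act g ((lam / e l) • w l) = lam • ∑ l, z l := by
        rw [Finset.smul_sum]
        refine Finset.sum_congr rfl fun l _ => ?_
        rw [CC.act_smul, smul_comm s, heq l, smul_smul, div_mul_cancel₀ _ (he l).ne']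
      rw [h2, smul_sub, smul_comm M' lam]
    rw [h1]
    exact hP.cl_smul hB' hlam.le
  · refine step0 hP hz m (fun l => e l / lam) (fun l => (div_pos (he l) hlam).le) (δ := δ)
      ((div_le_iff₀ hlam).2 hF) hM hM' hd (v := v) ?_ hA'
    have h1 := (h.sact_cl_iff hg hs).2 hB
    have h2 : s • act g (M' • (∑ l, w l) - v)
        = lam • (M' • (∑ l, (e l / lam) • z l) - v) := by
      rw [CC.act_sub, smul_sub, hv, CC.act_smul, smul_comm s M', CC.act_sum, Finset.smul_sum,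
        smul_sub, smul_comm lam M', Finset.smul_sum (r := lam)]
      congr 2
      refine Finset.sum_congr rfl fun l _ => ?_
      rw [heq l, smul_smul, mul_div_cancel₀ _ hlam.ne']
    rw [h2, hP.cl_smul_iff hlam] at h1
    exact h1

/-- the limit argument -/
theorem core (hF : FmiStmt) {Γ : Subgroup (GL (Fin n) ℝ)} {k : ℕ} (h : KT3.HK C Γ (k + 1))
    {η : ℝ} (hη : 0 < η) (i : Fin (k + 1))
    (w z : ℕ → Fin (k + 1) → V n) (e : ℕ → Fin (k + 1) → ℝ) (g : ℕ → GL (Fin n) ℝ)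
    (s lam δ : ℕ → ℝ) (v : ℕ → V n) (W : Fin (k + 1) → V n) (q : V n)
    (hδ : Tendsto δ atTop (𝓝 0))
    (hRN : ∀ j, RN C Γ (δ j) (w j) (z j) (e j) (g j) (s j)) (hlam : ∀ j, 0 < lam j)
    (hfar : ∀ j, Far (δ j) (lam j) (e j) i) (hEg : ∀ j, Eg C Γ (g j) (s j) (lam j) (v j))
    (hW : IsPES C Γ W) (hwW : ∀ l, Tendsto (fun j => w j l) atTop (𝓝 (W l)))
    (hvq : Tendsto v atTop (𝓝 q)) (hq0 : q ≠ 0) :
    ∃ c : ℝ, 0 < c ∧ ∀ᶠ j in atTop, Nv C η (w j) i (c • v j) := by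
  classical
  have hcc : CC C Γ := h.toCC
  have hP : PCone C := hcc.toPCone
  have hul := hcc.hul
  have hSW : ∑ l, W l ∈ C := PES.sum_mem hW.1
  have hsum : Tendsto (fun j => ∑ l, w j l) atTop (𝓝 (∑ l, W l)) :=
    tendsto_finsetSum _ fun l _ => hwW l
  -- `z j → W`
  obtain ⟨B, hB, hBn⟩ := hP.normal
  have hzw : ∀ l, Tendsto (fun j => z j l - w j l) atTop (𝓝 0) := by
    intro l
    have t1 : Tendsto (fun j => δ j • ∑ m, w j m) atTop (𝓝 0) := by
      have := hδ.smul hsum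
      rwa [zero_smul] at this
    have t2 : Tendsto (fun j => δ j • (∑ m, w j m) + (z j l - w j l)) atTop (𝓝 0) := by
      refine squeeze_zero_norm (a := fun j => B * ‖(2 : ℝ) • (δ j • ∑ m, w j m)‖) ?_ ?_
      · intro j
        refine hBn _ _ ((hRN j).nr l).2 ?_
        have h1 : (2 : ℝ) • (δ j • ∑ m, w j m) - (δ j • (∑ m, w j m) + (z j l - w j l))
            = δ j • (∑ m, w j m) - (z j l - w j l) := by module
        rw [h1]
        exact ((hRN j).nr l).1
      · have t3 := ((t1.const_smul (2 : ℝ)).norm).const_mul B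
        simpa using t3
    have t4 := t2.sub t1
    rw [sub_zero] at t4
    refine t4.congr fun j => ?_
    module
  have hzW : ∀ l, Tendsto (fun j => z j l) atTop (𝓝 (W l)) := by
    intro l
    have t := (hzw l).add (hwW l)
    rw [zero_add] at t
    refine t.congr fun j => ?_
    module
  have hsumz : Tendsto (fun j => ∑ l, z j l) atTop (𝓝 (∑ l, W l)) :=
    tendsto_finsetSum _ fun l _ => hzW l
  -- `q` is in the limit cone
  have hqC : q ∉ C := by
    intro hq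
    obtain ⟨j, hj⟩ := (hvq.eventually (hP.isOpen.mem_nhds hq)).exists
    exact hul.lamNot _ (hEg j).1 hj
  have hq : q ∈ LamC C Γ :=
    H37.cloF n C Γ hcc v q (fun j => hul.lamHull _ (hEg j).1) hvq hqC hq0
  -- the claim
  have hcl : ∀ m, m ∉ ({i} : Finset (Fin (k + 1))) → q + fS W {m}ᶜ ∉ C := by
    intro m hm hqm
    have hmi : m ≠ i := by simpa using hm
    have tF : Tendsto (fun j => fS (w j) {m}ᶜ) atTop (𝓝 (fS W {m}ᶜ)) :=
      tendsto_finsetSum _ fun l _ => hwW l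
    have tF' : Tendsto (fun j => fS (z j) {m}ᶜ) atTop (𝓝 (fS W {m}ᶜ)) :=
      tendsto_finsetSum _ fun l _ => hzW l
    obtain ⟨M, hM, hMC⟩ := hP.absorb hqm (W m)
    obtain ⟨M', hM', hMC'⟩ := hP.absorb hSW q
    have e1 : ∀ᶠ j in atTop, M • (v j + fS (w j) {m}ᶜ) - w j m ∈ C :=
      (((hvq.add tF).const_smul M).sub (hwW m)).eventually (hP.isOpen.mem_nhds hMC)
    have e2 : ∀ᶠ j in atTop, M • (v j + fS (z j) {m}ᶜ) - z j m ∈ C :=
      (((hvq.add tF').const_smul M).sub (hzW m)).eventually (hP.isOpen.mem_nhds hMC)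
    have e3 : ∀ᶠ j in atTop, M' • (∑ l, w j l) - v j ∈ C :=
      ((hsum.const_smul M').sub hvq).eventually (hP.isOpen.mem_nhds hMC')
    have e4 : ∀ᶠ j in atTop, M' • (∑ l, z j l) - v j ∈ C :=
      ((hsumz.const_smul M').sub hvq).eventually (hP.isOpen.mem_nhds hMC')
    have e5 : ∀ᶠ j in atTop, M * M' * δ j < 1 / 2 := by
      have t := hδ.const_mul (M * M')
      rw [mul_zero] at t
      exact t.eventually (gt_mem_nhds (by norm_num))
    obtain ⟨j, h1, h2, h3, h4, h5⟩ := (e1.and (e2.and (e3.and (e4.and e5)))).exists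
    exact step hcc (hRN j).pes.1 (hRN j).pez.1 (hRN j).gm (hRN j).s0 (hRN j).e0 (hRN j).eq
      (hlam j) (hEg j).2 m hM hM' h5.le (subset_closure h1) (subset_closure h2)
      (subset_closure h3) (subset_closure h4) (hfar j m hmi)
  obtain ⟨M, hM, hMq⟩ := hF n C Γ hcc (k + 1) h.three h.maxc W hW {i}
    (Finset.singleton_nonempty i) q hq hcl
  rw [fS_single] at hMq
  have hext : Ext C (W i) := exv n C Γ hcc (k + 1) (by have := h.three; omega) h.maxc W hW i
  obtain ⟨c, hc⟩ := hext q (hul.lamCl _ hq) M hMq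
  have hWi : W i ∈ closure C := PES.cl hW.1 i
  have hc0 : 0 < c := by
    rcases lt_trichotomy c 0 with h1 | h1 | h1
    · exfalso
      apply hq0
      refine hP.salient q (hul.lamCl _ hq) ?_
      rw [hc, ← neg_smul]
      exact hP.cl_smul hWi (by linarith)
    · exfalso
      apply hq0
      rw [hc, h1, zero_smul]
    · exact h1
  refine ⟨c⁻¹, inv_pos.2 hc0, ?_⟩
  have t0 : Tendsto (fun j => c⁻¹ • v j - w j i) atTop (𝓝 0) := by
    have t := (hvq.const_smul c⁻¹).sub (hwW i)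
    have h1 : c⁻¹ • q - W i = 0 := by
      rw [hc, smul_smul, inv_mul_cancel₀ hc0.ne', one_smul, sub_self]
    rwa [h1] at t
  have hηC : η • (∑ l, W l) ∈ C := hP.smul _ hSW _ hη
  have t1 : Tendsto (fun j => η • (∑ l, w j l) - (c⁻¹ • v j - w j i)) atTop
      (𝓝 (η • (∑ l, W l))) := by
    have t := (hsum.const_smul η).sub t0
    rwa [sub_zero] at t
  have t2 : Tendsto (fun j => η • (∑ l, w j l) + (c⁻¹ • v j - w j i)) atTop
      (𝓝 (η • (∑ l, W l))) := by
    have t := (hsum.const_smul η).add t0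
    rwa [add_zero] at t
  filter_upwards [t1.eventually (hP.isOpen.mem_nhds hηC),
    t2.eventually (hP.isOpen.mem_nhds hηC)] with j h1 h2
  exact ⟨subset_closure h1, subset_closure h2⟩

/-- conjugation of the return element -/
theorem act_conj (γ g : GL (Fin n) ℝ) (x : V n) :
    act (γ * g * γ⁻¹) (act γ x) = act γ (act g x) := by
  rw [CC.act_mul, CC.act_inv_act, CC.act_mul]

theorem sum_sact {K : ℕ} (t : ℝ) (γ : GL (Fin n) ℝ) (w : Fin K → V n) :
    ∑ m, t • act γ (w m) = t • act γ (∑ m, w m) := by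
  rw [CC.act_sum, Finset.smul_sum]

theorem rn_inv {Γ : Subgroup (GL (Fin n) ℝ)} (h : CC C Γ) {k : ℕ} {δ : ℝ}
    {w z : Fin (k + 1) → V n} {e : Fin (k + 1) → ℝ} {g : GL (Fin n) ℝ} {s : ℝ}
    (H : RN C Γ δ w z e g s) {γ : GL (Fin n) ℝ} (hγ : γ ∈ Γ) {t : ℝ} (ht : 0 < t) :
    RN C Γ δ (fun l => t • act γ (w l)) (fun l => t • act γ (z l)) e (γ * g * γ⁻¹) s where
  pes := (H60.elm n C Γ h (Fin (k + 1)) w H.pes).2.1 γ hγ t ht
  pez := (H60.elm n C Γ h (Fin (k + 1)) z H.pez).2.1 γ hγ t ht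
  gm := Γ.mul_mem (Γ.mul_mem hγ H.gm) (Γ.inv_mem hγ)
  s0 := H.s0
  e0 := H.e0
  eq := by
    intro l
    rw [CC.act_smul, act_conj, smul_comm s t, ← CC.act_smul γ s, H.eq l, CC.act_smul,
      smul_comm t (e l)]
  nr := by
    intro l
    have h1 := H.nr l
    constructor
    · have h2 : δ • (∑ m, t • act γ (w m)) - (t • act γ (z l) - t • act γ (w l))
          = t • act γ (δ • (∑ m, w m) - (z l - w l)) := by
        rw [sum_sact, CC.act_sub, CC.act_sub, CC.act_smul]; module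
      rw [h2]
      exact (h.sact_cl_iff hγ ht).2 h1.1
    · have h2 : δ • (∑ m, t • act γ (w m)) + (t • act γ (z l) - t • act γ (w l))
          = t • act γ (δ • (∑ m, w m) + (z l - w l)) := by
        rw [sum_sact, CC.act_add, CC.act_sub, CC.act_smul]; module
      rw [h2]
      exact (h.sact_cl_iff hγ ht).2 h1.2

theorem eg_inv {Γ : Subgroup (GL (Fin n) ℝ)} (h : CC C Γ) {g : GL (Fin n) ℝ} {s lam : ℝ}
    {v : V n} (H : Eg C Γ g s lam v) {γ : GL (Fin n) ℝ} (hγ : γ ∈ Γ) {t : ℝ} (ht : 0 < t) :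
    Eg C Γ (γ * g * γ⁻¹) s lam (t • act γ v) := by
  refine ⟨h.hul.lamSmul _ (h.hul.lamAct _ H.1 γ hγ) t ht, ?_⟩
  rw [CC.act_smul, act_conj, smul_comm s t, ← CC.act_smul γ s, H.2, CC.act_smul,
    smul_comm t lam]

theorem nv_inv {Γ : Subgroup (GL (Fin n) ℝ)} (h : CC C Γ) {k : ℕ} {η : ℝ}
    {w : Fin (k + 1) → V n} {i : Fin (k + 1)} {v : V n} {γ : GL (Fin n) ℝ} (hγ : γ ∈ Γ) {t : ℝ}
    (ht : 0 < t) {c : ℝ} (H : Nv C η (fun l => t • act γ (w l)) i (c • t • act γ v)) :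
    Nv C η w i (c • v) := by
  obtain ⟨h1, h2⟩ := H
  constructor
  · rw [← h.sact_cl_iff hγ ht]
    have h3 : t • act γ (η • (∑ m, w m) - (c • v - w i))
        = η • (∑ m, t • act γ (w m)) - (c • t • act γ v - t • act γ (w i)) := by
      rw [sum_sact, CC.act_sub, CC.act_sub, CC.act_smul, CC.act_smul]; module
    rw [h3]; exact h1
  · rw [← h.sact_cl_iff hγ ht]
    have h3 : t • act γ (η • (∑ m, w m) + (c • v - w i))
        = η • (∑ m, t • act γ (w m)) + (c • t • act γ v - t • act γ (w i)) := by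
      rw [sum_sact, CC.act_add, CC.act_sub, CC.act_smul, CC.act_smul]; module
    rw [h3]; exact h2

/-- **Row NEA.** -/
theorem nea (h1 : FmiStmt) : NeaStmt := by
  intro n k C Γ h η hη
  by_contra hcon
  push Not at hcon
  have hcc : CC C Γ := h.toCC
  have hul := hcc.hul
  choose w z e g s lam hRN hlam i hfar v hEg hno using
    fun j : ℕ => hcon (1 / ((j : ℝ) + 1)) (by positivity)
  -- constant index
  have hpig : ∃ i0, ∃ᶠ j in atTop, i j = i0 := by
    by_contra hne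
    push Not at hne
    have h2 : ∀ᶠ j in atTop, ∀ i0, i j ≠ i0 := by
      rw [eventually_all]
      intro i0
      exact hne i0
    obtain ⟨j, hj⟩ := h2.exists
    exact hj _ rfl
  obtain ⟨i0, hi0⟩ := hpig
  obtain ⟨φ, hφ, hφi⟩ := extraction_of_frequently_atTop hi0
  obtain ⟨ψ, γ, t, W, hψ, hγ, ht, hW, hlim⟩ := cmp hcc (K := k + 1)
    (by have := h.three; omega) (fun m => w (φ m)) (fun m => (hRN (φ m)).pes)
  -- normalised eigenvectors
  have hvne : ∀ m, t m • act (γ m) (v (φ (ψ m))) ≠ 0 := fun m =>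
    hul.lamNe _ (eg_inv hcc (hEg (φ (ψ m))) (hγ m) (ht m)).1
  set u : ℕ → V n := fun m => t m • act (γ m) (v (φ (ψ m))) with hu
  have hun : ∀ m, 0 < ‖u m‖ := fun m => norm_pos_iff.2 (hvne m)
  have hball : ∀ m, (‖u m‖⁻¹ • u m) ∈ Metric.sphere (0 : V n) 1 := by
    intro m
    rw [mem_sphere_zero_iff_norm, norm_smul, norm_inv, norm_norm, inv_mul_cancel₀ (hun m).ne']
  obtain ⟨q, hq, χ, hχ, hlimq⟩ := (isCompact_sphere (0 : V n) 1).tendsto_subseq hball
  have hq0 : q ≠ 0 := by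
    intro h0
    rw [mem_sphere_zero_iff_norm, h0, norm_zero] at hq
    exact zero_ne_one hq
  have hδ : Tendsto (fun m => 1 / (((φ (ψ (χ m)) : ℕ) : ℝ) + 1)) atTop (𝓝 0) :=
    tendsto_one_div_add_atTop_nhds_zero_nat.comp
      ((hφ.comp (hψ.comp hχ)).tendsto_atTop)
  obtain ⟨c, hc, hev⟩ := core h1 h hη i0
    (fun m l => t (χ m) • act (γ (χ m)) (w (φ (ψ (χ m))) l))
    (fun m l => t (χ m) • act (γ (χ m)) (z (φ (ψ (χ m))) l))
    (fun m => e (φ (ψ (χ m))))
    (fun m => γ (χ m) * g (φ (ψ (χ m))) * (γ (χ m))⁻¹)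
    (fun m => s (φ (ψ (χ m)))) (fun m => lam (φ (ψ (χ m))))
    (fun m => 1 / (((φ (ψ (χ m)) : ℕ) : ℝ) + 1))
    (fun m => ‖u (χ m)‖⁻¹ • u (χ m)) W q hδ
    (fun m => rn_inv hcc (hRN _) (hγ _) (ht _)) (fun m => hlam _)
    (fun m => by have := hfar (φ (ψ (χ m))); rwa [hφi] at this)
    (fun m => by
      have := eg_inv hcc (hEg (φ (ψ (χ m)))) (hγ (χ m))
        (t := ‖u (χ m)‖⁻¹ * t (χ m)) (mul_pos (inv_pos.2 (hun _)) (ht _))
      rw [mul_smul] at this
      exact this)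
    hW (fun l => (hlim l).comp hχ.tendsto_atTop) hlimq hq0
  obtain ⟨m, hm⟩ := hev.exists
  refine hno (φ (ψ (χ m))) (c * ‖u (χ m)‖⁻¹) (mul_pos hc (inv_pos.2 (hun _))) ?_
  rw [hφi]
  refine nv_inv hcc (hγ (χ m)) (ht (χ m)) ?_
  rw [mul_smul]
  exact hm

end Pool.Agent.VMX.H28
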